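import Pool.Agent.Helper36.HS.St

/-! # HS, module CA: conjunctions and diagonal intersections of clubs -/

namespace Pool.Agent.Helper8.HS.CA

open Ordinal Cardinal ZFSet Order Pool.Agent.Helper73.HODC Pool.Agent.Helper73.HE
open Pool.Agent.Helper73.HM Pool.Agent.Helper73.HU Pool.Agent.Helper73.HV
open Pool.Agent.Helper36.HS

/-- the limit points of a club form a club -/
theorem club_lim {κ : Ordinal.{0}} (hκ : ℵ₀ < κ.cof) {C : Set Ordinal.{0}} (hC : Club C κ) :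
    Club {a | UnbIn C a} κ := by
  refine ⟨?_, ?_⟩
  · intro a ha
    have hch : ∀ x : Ordinal.{0}, ∃ y, x < κ → y ∈ C ∧ x < y ∧ y < κ := by
      intro x
      by_cases hx : x < κ
      · obtain ⟨y, hy1, hy2, hy3⟩ := hC.1 x hx
        exact ⟨y, fun _ => ⟨hy1, hy2, hy3⟩⟩
      · exact ⟨0, fun h' => absurd h' hx⟩
    choose f hf using hch
    obtain ⟨s, has, hsκ, -, hs⟩ := exists_lim hκ f (fun x hx => (hf x hx).2) a ha
    refine ⟨s, ?_, has, hsκ⟩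
    intro b hb
    obtain ⟨x, hbx, hxκ, hxs⟩ := hs b hb
    exact ⟨f x, (hf x hxκ).1, hbx.trans (hf x hxκ).2.1, hxs⟩
  · intro a _ _ hu b hb
    obtain ⟨x, hx, h1, h2⟩ := hu b hb
    obtain ⟨y, hy, h3, h4⟩ := hx b h1
    exact ⟨y, hy, h3, h4.trans h2⟩

theorem ca : StCA := by
  intro c hc hc'
  have hκ : ℵ₀ < c.ord.cof := by rw [hc.cof_ord]; exact hc'
  refine ⟨?_, ?_, ?_, ?_⟩
  · rintro P Q ⟨C, hC, hP⟩ ⟨D, hD, hQ⟩
    exact ⟨C ∩ D, hC.inter hκ hD, fun i hi hlt => ⟨hP i hi.1 hlt, hQ i hi.2 hlt⟩⟩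
  · intro P hP
    have hch : ∀ k : Ordinal.{0}, ∃ C : Set Ordinal.{0}, k < c.ord →
        Club C c.ord ∧ ∀ i ∈ C, i < c.ord → P k i := by
      intro k
      by_cases hk : k < c.ord
      · obtain ⟨C, h1, h2⟩ := hP k hk
        exact ⟨C, fun _ => ⟨h1, h2⟩⟩
      · exact ⟨∅, fun h' => absurd h' hk⟩
    choose C hC using hch
    refine ⟨_, Club.diag hc hc' (C := C) (fun k hk => (hC k hk).1), ?_⟩
    intro i hi hlt k hk
    exact (hC k (hk.trans hlt)).2 i (hi k hk) hlt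
  · exact ⟨_, club_limit hκ, fun i hi _ => hi⟩
  · rintro P ⟨C, hC, hP⟩
    refine ⟨_, hC.inter hκ (club_lim hκ hC), ?_⟩
    intro i hi hlt
    exact ⟨hP i hi.1 hlt, C, hi.2, fun a ha ha0 hu => hC.2 a (ha.trans hlt) ha0 hu,
      fun b hb hbi => hP b hb (hbi.trans hlt)⟩

end Pool.Agent.Helper8.HS.CA
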